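import Pool.Agent.H65.CM4.Targets1

/-!
# Row A_RAB of cm4_modules: the sum over the lattices of a given squarefree index
-/

set_option autoImplicit false

open MeasureTheory Set Filter NumberField NumberField.InfinitePlace Pool.Agent.H65.CM4
open scoped Real

namespace Pool.Agent.H1.CM4

variable (k : Type) [Field k] [NumberField k] [IsTotallyReal k]

omit [IsTotallyReal k] in
theorem rab_mem {I : Ideal (𝓞 k)} {L : La k} (h : L ∈ Ls I) : ∃ u : V2 k, Cop I u ∧ L = Lw I u := by
  unfold Ls at h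
  split_ifs at h with h1
  · simpa using h
  · simp at h

omit [IsTotallyReal k] in
theorem rab_top (Q : QF k) : ∑ L ∈ Ls (⊤ : Ideal (𝓞 k)), |Rn ⊤ L Q| ≤ 1 := by
  classical
  have h0 : pf (⊤ : Ideal (𝓞 k)) = ∅ := by
    unfold pf
    rw [← Ideal.one_eq_top, UniqueFactorizationMonoid.normalizedFactors_one]
    rfl
  have h1 : ∀ L : La k, Rn ⊤ L Q = 1 := by
    intro L
    unfold Rn
    rw [h0, Finset.prod_empty]
  have h2 : Ls (⊤ : Ideal (𝓞 k)) ⊆ {⊤} := by
    intro L hL
    obtain ⟨u, _, rfl⟩ := rab_mem k hL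
    rw [Finset.mem_singleton, eq_top_iff]
    intro v _
    exact Submodule.mem_top
  simp only [h1, abs_one, Finset.sum_const, nsmul_eq_mul, mul_one]
  have h3 := Finset.card_le_card h2
  rw [Finset.card_singleton] at h3
  exact_mod_cast h3

omit [NumberField k] [IsTotallyReal k] in
theorem rab_sup {P m : Ideal (𝓞 k)} (h : P ⊔ m = ⊤) (A : Ideal (𝓞 k)) :
    (P ⊔ A) * (m ⊔ A) = P * m ⊔ A := by
  have hA : P * A ⊔ A * m = A := by
    rw [mul_comm P A, ← Ideal.mul_sup, h, Ideal.mul_top]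
  have hB : A ⊔ A * A = A := sup_eq_left.2 Ideal.mul_le_right
  calc (P ⊔ A) * (m ⊔ A) = (P * m ⊔ P * A) ⊔ (A * m ⊔ A * A) := by
        rw [Ideal.sup_mul, Ideal.mul_sup, Ideal.mul_sup]
    _ = (P * m ⊔ (P * A ⊔ A * m)) ⊔ A * A := by ac_rfl
    _ = P * m ⊔ (A ⊔ A * A) := by rw [hA, sup_assoc]
    _ = P * m ⊔ A := by rw [hB]

theorem pf_RAB (hEMB : T_EMB k) (hFLS : T_FLS k) (hCRT : T_CRT k) (hRFM : T_RFM k)
    (hRBP : T_RBP k) : T_RAB k := by
  classical
  intro f Q
  induction f using UniqueFactorizationMonoid.induction_on_prime with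
  | h₁ => intro h; exact absurd rfl h
  | h₂ f hf =>
    intro _ _
    rw [Ideal.isUnit_iff] at hf
    subst hf
    have h0 : pf (⊤ : Ideal (𝓞 k)) = ∅ := by
      unfold pf
      rw [← Ideal.one_eq_top, UniqueFactorizationMonoid.normalizedFactors_one]
      rfl
    rw [h0, top_sup_eq, Finset.card_empty, pow_zero, one_mul]
    have h1 : nm (⊤ : Ideal (𝓞 k)) = 1 := by
      unfold nm
      rw [Ideal.absNorm_top, Nat.cast_one]
    rw [h1, one_mul]
    exact rab_top k Q
  | h₃ m P hm hP ih =>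
    intro _ hsq
    have hm' : m ≠ ⊥ := hm
    have hP0 : P ≠ ⊥ := hP.ne_zero
    have hPp : P.IsPrime := Ideal.isPrime_of_prime hP
    have hPm : ¬ P ∣ m := by
      intro ⟨c, hc⟩
      have h1 : P * P ∣ P * m := ⟨c, by rw [hc, mul_assoc]⟩
      exact hP.not_unit (hsq P h1)
    have hmax : P.IsMaximal := hPp.isMaximal hP0
    have hcop : P ⊔ m = ⊤ := by
      rcases hmax.1.2 (P ⊔ m) with h
      by_contra hne
      have h1 : P = P ⊔ m := hmax.eq_of_le hne le_sup_left
      have h2 : m ≤ P := by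
        rw [h1]
        exact le_sup_right
      exact hPm (Ideal.dvd_iff_le.2 h2)
    have hih := ih hm' (hsq.of_mul_right)
    obtain ⟨c1, c2, c3⟩ := hCRT P m hP0 hm' hcop
    have himg : Ls (P * m) = (Ls P ×ˢ Ls m).image fun x => x.1 ⊓ x.2 := by
      ext L
      rw [Finset.mem_image]
      constructor
      · intro hL
        obtain ⟨L₁, h1, L₂, h2, rfl⟩ := c2 L hL
        exact ⟨(L₁, L₂), Finset.mem_product.2 ⟨h1, h2⟩, rfl⟩
      · rintro ⟨⟨L₁, L₂⟩, h1, rfl⟩
        rw [Finset.mem_product] at h1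
        exact c1 L₁ h1.1 L₂ h1.2
    have hsum : ∑ L ∈ Ls (P * m), |Rn (P * m) L Q| =
        (∑ L ∈ Ls P, |Rn P L Q|) * ∑ L ∈ Ls m, |Rn m L Q| := by
      rw [himg, Finset.sum_image, Finset.sum_mul_sum, ← Finset.sum_product']
      · refine Finset.sum_congr rfl fun x hx => ?_
        rw [Finset.mem_product] at hx
        rw [(hRFM P m x.1 x.2 Q hP0 hm' hcop hx.1 hx.2).2, abs_mul]
      · rintro ⟨L₁, L₂⟩ h1 ⟨L₁', L₂'⟩ h2 h3
        have h1' := Finset.mem_product.1 (Finset.mem_coe.1 h1)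
        have h2' := Finset.mem_product.1 (Finset.mem_coe.1 h2)
        obtain ⟨h4, h5⟩ := c3 L₁ h1'.1 L₂ h1'.2 L₁' h2'.1 L₂' h2'.2 (le_of_eq h3)
        rw [h4, h5]
    have hPb : ∑ L ∈ Ls P, |Rn P L Q| ≤ 3 * nm P * nm (P ⊔ Ideal.span {Q.1}) := by
      obtain ⟨b1, b2⟩ := hRBP P Q hPp hP0
      by_cases hQ : Q.1 ∈ P
      · have h1 : P ⊔ Ideal.span {Q.1} = P := by
          rw [sup_eq_left, Ideal.span_singleton_le_iff_mem]
          exact hQ
        rw [h1]
        refine (b1 hQ).trans (le_of_eq ?_)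
        ring
      · have h1 : P ⊔ Ideal.span {Q.1} = ⊤ := by
          by_contra hne
          have h2 : P = P ⊔ Ideal.span {Q.1} := hmax.eq_of_le hne le_sup_left
          apply hQ
          rw [h2]
          exact Ideal.mem_sup_right (Ideal.mem_span_singleton_self _)
        rw [h1]
        have h3 : nm (⊤ : Ideal (𝓞 k)) = 1 := by
          unfold nm
          rw [Ideal.absNorm_top, Nat.cast_one]
        rw [h3, mul_one]
        exact b2 hQ
    have hpf : pf (P * m) = insert P (pf m) := by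
      unfold pf
      rw [UniqueFactorizationMonoid.normalizedFactors_mul hP.ne_zero hm,
        UniqueFactorizationMonoid.normalizedFactors_irreducible hP.irreducible, normalize_eq,
        Multiset.toFinset_add, Multiset.toFinset_singleton]
      rfl
    have hnot : P ∉ pf m := by
      intro h
      unfold pf at h
      rw [Multiset.mem_toFinset] at h
      exact hPm (UniqueFactorizationMonoid.dvd_of_mem_normalizedFactors h)
    have hnm : ∀ a b : Ideal (𝓞 k), nm (a * b) = nm a * nm b := by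
      intro a b
      unfold nm
      rw [map_mul, Nat.cast_mul]
    have hnn : ∀ a : Ideal (𝓞 k), 0 ≤ nm a := fun a => by
      unfold nm
      exact Nat.cast_nonneg _
    rw [hsum, hpf, Finset.card_insert_of_notMem hnot, ← rab_sup k hcop, hnm, hnm]
    refine (mul_le_mul hPb hih (Finset.sum_nonneg fun _ _ => abs_nonneg _) ?_).trans (le_of_eq ?_)
    · exact mul_nonneg (mul_nonneg (by norm_num) (hnn _)) (hnn _)
    · rw [pow_succ]
      ring

end Pool.Agent.H1.CM4
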